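import Pool.Agent.H60.LQ.Two
import Pool.Agent.H70.LQ.SBP
import Pool.Agent.H51.LQ.LPG

/-!
# LQ, row LVO3: the second level for all families
-/

set_option autoImplicit false

namespace Pool.LQ

open Finset Real
open Pool.Agent.H49.Ent Pool.Agent.H32.Dense Pool.KTH
open Pool.Agent.H24.KTH (dsv lvv lev cap Yf kp CAPStmt ONCStmt INFStmt)

namespace LVO354

/-- The final arithmetic. -/
theorem arith {a m c L Lp h sb sbp K Kp G Gp l Jr Cr Cc Cn B0 B1 Ck Cg e1 er eg n2 ε Bf : ℝ}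
    (ha0 : 8 / 7 ≤ a) (hm : 7 ≤ m) (hc0 : 0 ≤ c) (hc1 : c ≤ 1) (hl : 0 ≤ l)
    (hJl : Jr ≤ 2 * l) (hG : 0 ≤ G) (hh : 0 ≤ h) (hCr : 0 ≤ Cr)
    (hCc : 0 ≤ Cc) (hCn : 0 ≤ Cn) (hB0 : 0 ≤ B0) (hB1 : 0 ≤ B1) (hCk : 0 ≤ Ck) (hCg : 0 ≤ Cg)
    (hn2 : 0 ≤ n2) (her : 0 ≤ er) (hε : 0 < ε)
    (hL : L ≤ h + Lp + Cc) (hS : sbp + h ≤ sb + er * Jr) (hK : Kp ≤ K + Cr)
    (hGp : Gp ≤ Cg * (G + 1) + eg * l)
    (hres : (1 + c / m) * Lp ≤ a * (sbp - l) + (a + m + c) * Kp +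
      Cn * (B0 + B1 * Gp + e1 * l + Cc + Ck + (n2 + er) * Jr))
    (p1 : Cn * e1 ≤ ε / 8) (p2 : Cn * (B1 * eg) ≤ ε / 8) (p3 : Cn * (n2 + er) ≤ ε / 8)
    (p4 : a * er ≤ ε / 8)
    (hBf : (a + m + c) * Cr + 2 * Cc + Cn * (B0 + B1 * Cg + Cc + Ck) ≤ Bf) :
    L ≤ a * m / (m + c) * (sb - l) + (a * m / (m + c) + m) * K + Bf + Cn * B1 * Cg * G + ε * l := by
  have hm0 : 0 < m := by linarith
  have hmc : 0 < m + c := by linarith
  obtain ⟨D, hD⟩ : ∃ D, D = 1 + c / m := ⟨_, rfl⟩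
  have hcm : 0 ≤ c / m := by positivity
  have hcm1 : c / m ≤ 1 / 7 := by
    rw [div_le_div_iff₀ hm0 (by norm_num)]
    nlinarith
  have hD1 : 1 ≤ D := by rw [hD]; linarith
  have hD0 : 0 < D := by linarith
  have hDm : D * m = m + c := by
    rw [hD]
    field_simp
  have e1' : D * (a * m / (m + c)) = a := by
    rw [← hDm]
    field_simp
  -- sizes of the errors
  have q1 : Cn * (e1 * l) ≤ ε / 8 * l := by
    rw [← mul_assoc]
    exact mul_le_mul_of_nonneg_right p1 hl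
  have q2 : Cn * (B1 * (eg * l)) ≤ ε / 8 * l := by
    have : Cn * (B1 * (eg * l)) = Cn * (B1 * eg) * l := by ring
    rw [this]
    exact mul_le_mul_of_nonneg_right p2 hl
  have hne : 0 ≤ n2 + er := by linarith
  have q3 : Cn * ((n2 + er) * Jr) ≤ ε / 4 * l := by
    have h1 : Cn * ((n2 + er) * Jr) ≤ Cn * ((n2 + er) * (2 * l)) :=
      mul_le_mul_of_nonneg_left (mul_le_mul_of_nonneg_left hJl hne) hCn
    have h2 : Cn * ((n2 + er) * (2 * l)) = Cn * (n2 + er) * (2 * l) := by ring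
    have h3 : Cn * (n2 + er) * (2 * l) ≤ ε / 8 * (2 * l) :=
      mul_le_mul_of_nonneg_right p3 (by linarith)
    linarith
  have q4 : a * (er * Jr) ≤ ε / 4 * l := by
    have h1 : a * (er * Jr) ≤ a * (er * (2 * l)) :=
      mul_le_mul_of_nonneg_left (mul_le_mul_of_nonneg_left hJl her) (by linarith)
    have h2 : a * (er * (2 * l)) = a * er * (2 * l) := by ring
    have h3 : a * er * (2 * l) ≤ ε / 8 * (2 * l) :=
      mul_le_mul_of_nonneg_right p4 (by linarith)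
    linarith
  have q5 : Cn * (B1 * Gp) ≤ Cn * B1 * Cg * G + Cn * (B1 * Cg) + Cn * (B1 * (eg * l)) := by
    have h1 : Cn * (B1 * Gp) ≤ Cn * (B1 * (Cg * (G + 1) + eg * l)) :=
      mul_le_mul_of_nonneg_left (mul_le_mul_of_nonneg_left hGp hB1) hCn
    have h2 : Cn * (B1 * (Cg * (G + 1) + eg * l)) =
        Cn * B1 * Cg * G + Cn * (B1 * Cg) + Cn * (B1 * (eg * l)) := by ring
    linarith
  have q6 : (a + m + c) * Kp ≤ (a + m + c) * K + (a + m + c) * Cr := by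
    have h1 : (a + m + c) * Kp ≤ (a + m + c) * (K + Cr) :=
      mul_le_mul_of_nonneg_left hK (by linarith)
    linarith
  have q7 : D * L ≤ D * h + D * Lp + D * Cc := by
    have h1 : D * L ≤ D * (h + Lp + Cc) := mul_le_mul_of_nonneg_left hL hD0.le
    linarith
  have hDa : D ≤ 8 / 7 := by rw [hD]; linarith
  have q8 : D * Cc ≤ 2 * Cc := mul_le_mul_of_nonneg_right (by linarith) hCc
  have q9 : a * sbp + a * h ≤ a * sb + a * (er * Jr) := by
    have h1 : a * (sbp + h) ≤ a * (sb + er * Jr) := mul_le_mul_of_nonneg_left hS (by linarith)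
    linarith
  rw [← hD] at hres
  have key : D * L ≤ a * (sb - l) + (a + m + c) * K + (Bf + Cn * B1 * Cg * G + ε * l) +
      (D - a) * h := by
    have h1 : Cn * (B0 + B1 * Gp + e1 * l + Cc + Ck + (n2 + er) * Jr) =
        Cn * B0 + Cn * (B1 * Gp) + Cn * (e1 * l) + Cn * Cc + Cn * Ck + Cn * ((n2 + er) * Jr) := by
      ring
    rw [h1] at hres
    have h2 : Cn * (B0 + B1 * Cg + Cc + Ck) = Cn * B0 + Cn * (B1 * Cg) + Cn * Cc + Cn * Ck := by
      ring
    rw [h2] at hBf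
    have h3 : 0 ≤ ε * l := mul_nonneg hε.le hl
    linarith
  have h1 : (D - a) * h ≤ 0 := mul_nonpos_of_nonpos_of_nonneg (by linarith) hh
  have hBf0 : 0 ≤ Bf := by
    refine le_trans ?_ hBf
    have hx : 0 ≤ (a + m + c) * Cr := mul_nonneg (by linarith) hCr
    have hy : 0 ≤ Cn * (B0 + B1 * Cg + Cc + Ck) := by positivity
    linarith
  have hE : 0 ≤ Bf + Cn * B1 * Cg * G + ε * l := by positivity
  have h2 : Bf + Cn * B1 * Cg * G + ε * l ≤ D * (Bf + Cn * B1 * Cg * G + ε * l) := by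
    have := mul_le_mul_of_nonneg_right hD1 hE
    linarith
  refine le_of_mul_le_mul_left ?_ hD0
  have h3 : D * (a * m / (m + c) * (sb - l) + (a * m / (m + c) + m) * K + Bf +
      Cn * B1 * Cg * G + ε * l) = D * (a * m / (m + c)) * (sb - l) +
      (D * (a * m / (m + c)) + D * m) * K + D * (Bf + Cn * B1 * Cg * G + ε * l) := by ring
  rw [h3, e1', hDm]
  linarith

/-- The arithmetic for small scales. -/
theorem arith0 {a a' m L S K G l l1 ε Bf Cc Ca h B : ℝ} (h0 : 0 ≤ a') (h1 : a' ≤ a) (hm : 0 ≤ m)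
    (hS : 0 ≤ S) (hK : 0 ≤ K) (hG : 0 ≤ G) (hB : 0 ≤ B) (hl : 0 ≤ l) (hll : l ≤ l1) (hε : 0 ≤ ε)
    (c1 : L ≤ h + m * ((1 - 0) * l) + Cc) (c3 : h ≤ m * (0 * l) + Cc) (hCc : Cc ≤ Ca)
    (hBf : 2 * Ca + (a + m) * l1 ≤ Bf) :
    L ≤ a' * (S - l) + (a' + m) * K + Bf + B * G + ε * l := by
  have q1 : 0 ≤ a' * S := mul_nonneg h0 hS
  have q2 : a' * l ≤ a * l := mul_le_mul_of_nonneg_right h1 hl
  have q3 : (a + m) * l ≤ (a + m) * l1 := mul_le_mul_of_nonneg_left hll (by linarith)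
  have q4 : 0 ≤ (a' + m) * K := mul_nonneg (by linarith) hK
  have q5 : 0 ≤ B * G := mul_nonneg hB hG
  have q6 : 0 ≤ ε * l := mul_nonneg hε hl
  linarith

/-- Level two is monotone in the error. -/
theorem two_mono {a Λ μ L l sb y K τ E E' : ℝ} (h : Two a Λ μ L l sb y K τ E) (hE : E ≤ E') :
    Two a Λ μ L l sb y K τ E' := by
  unfold Two at h ⊢
  linarith

/-- Bounds for the gain `kp a`. -/
theorem kp_bds {a : ℝ} (ha1 : 1.67513 ≤ a) (ha2 : a ≤ 1.6752) : 0 ≤ kp a ∧ kp a ≤ 1 / 4 := by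
  have hd : 0 < a ^ 2 + 3 * a - 2 := by nlinarith
  constructor
  · unfold kp
    exact div_nonneg (by nlinarith) hd.le
  · unfold kp
    rw [div_le_iff₀ hd]
    nlinarith

/-- Bounds for the constant `cc m`. -/
theorem cc_bds {m : ℝ} (hm : 7 ≤ m) : 0 ≤ cc m ∧ cc m ≤ 1 := by
  have hm0 : 0 < m := by linarith
  unfold cc
  constructor
  · positivity
  · have : 0.05 / m ≤ 1 / 2 := by
      rw [div_le_div_iff₀ hm0 (by norm_num)]
      linarith
    linarith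

end LVO354

/-- ROW LVO3. -/
theorem lvo3 (hRDS : RDSStmt) (hNRG3 : NRG3Stmt) (hCAP : CAPStmt) (hKSP : Pool.KTH.KSPStmt)
    (hLVB3 : LVB3Stmt) (hNUM3 : NUM3Stmt) : LVO3Stmt := by
  intro m a hm ha1 ha2 ha3 hPA ε hε
  have hmr : (7 : ℝ) ≤ m := by exact_mod_cast hm
  have hm0 : (0 : ℝ) < m := by linarith
  obtain ⟨hk0, hk1⟩ := LVO354.kp_bds ha1 ha2
  obtain ⟨hc0, hc1⟩ := LVO354.cc_bds hmr
  have ha0 : (0 : ℝ) < a := by linarith
  have hl0 : (0 : ℝ) ≤ Real.log 2 := Real.log_nonneg (by norm_num)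
  have hlh : (1 : ℝ) / 2 ≤ Real.log 2 := by
    have := Real.log_two_gt_d9
    linarith
  obtain ⟨Cn, hCn, hnum⟩ := hNUM3 m a (1.01 * (a + m + kp a)) hm ha1 ha2 ha3 rfl
  have hCn1 : 0 < Cn + 1 := by linarith
  -- the small parameters
  obtain ⟨e1, he1⟩ : ∃ e1, e1 = ε / (8 * (Cn + 1)) := ⟨_, rfl⟩
  have he10 : 0 < e1 := by rw [he1]; positivity
  have p1 : Cn * e1 ≤ ε / 8 := by
    rw [he1, mul_div_assoc', div_le_div_iff₀ (by positivity) (by norm_num)]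
    nlinarith
  obtain ⟨N₁, hN₁, B₀, B₁, hB₁, hlvb⟩ := hLVB3 m a (1.01 * (a + m + kp a)) m (by omega)
    (by linarith) (by linarith) (by linarith) (by
      rw [div_lt_iff₀ (by linarith)]
      have h1 : (7 : ℝ) * (a - 1) ≤ m * (a - 1) := mul_le_mul_of_nonneg_right hmr (by linarith)
      linarith) hPA e1 he10
  have hCB : 0 ≤ Cn * B₁ := mul_nonneg hCn hB₁
  obtain ⟨eg, heg⟩ : ∃ eg, eg = ε / (8 * (Cn * B₁ + 1)) := ⟨_, rfl⟩
  have heg0 : 0 < eg := by rw [heg]; positivity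
  have p2 : Cn * (B₁ * eg) ≤ ε / 8 := by
    rw [← mul_assoc, heg, mul_div_assoc', div_le_div_iff₀ (by positivity) (by norm_num)]
    nlinarith
  obtain ⟨er, her⟩ : ∃ er, er = ε / (16 * (Cn + a + 1)) := ⟨_, rfl⟩
  have her0 : 0 < er := by rw [her]; positivity
  have p3a : (Cn + a + 1) * er = ε / 16 := by
    rw [her]
    field_simp
  have p3b : Cn * er ≤ ε / 16 := by
    have h1 : 0 ≤ (a + 1) * er := by positivity
    linarith
  have p4 : a * er ≤ ε / 8 := by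
    have h1 : 0 ≤ (Cn + 1) * er := by positivity
    linarith
  obtain ⟨n, hn⟩ := exists_nat_ge (max 1 (16 * (Cn + 1) / ε))
  have hn1 : (1 : ℝ) ≤ n := (le_max_left _ _).trans hn
  have hnpos : (0 : ℝ) < n := by linarith
  have hn0 : 0 < n := by exact_mod_cast hnpos
  have p3c : Cn * (1 / n) ≤ ε / 16 := by
    have h := (le_max_right _ _).trans hn
    rw [div_le_iff₀ hε] at h
    rw [mul_one_div, div_le_iff₀ hnpos]
    linarith
  have p3 : Cn * (1 / n + er) ≤ ε / 8 := by linarith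
  obtain ⟨Cr, J₀, hR⟩ := hRDS m n hn0 er her0
  obtain ⟨Cc, hC⟩ := hCAP m n hn0
  obtain ⟨Ck, hCk, hksp⟩ := hKSP m N₁ hN₁
  obtain ⟨Cg, hCg, hE⟩ := hNRG3 n eg heg0
  obtain ⟨J₁, hJ₁⟩ : ∃ J₁, J₁ = max J₀ 1 := ⟨_, rfl⟩
  obtain ⟨Bf, hBf⟩ : ∃ Bf, Bf = ((a + m + cc m) * |Cr| + 2 * |Cc| +
    Cn * (|B₀| + B₁ * Cg + |Cc| + Ck)) + (a + m) * (J₁ * Real.log 2) := ⟨_, rfl⟩
  have hCr' := le_abs_self Cr
  have hCr0 := abs_nonneg Cr
  have hCc' := le_abs_self Cc
  have hCc0 := abs_nonneg Cc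
  have hB₀' := le_abs_self B₀
  have hB₀0 := abs_nonneg B₀
  have hpart0 : 0 ≤ (a + m) * (J₁ * Real.log 2) := by positivity
  have hpart1 : 0 ≤ (a + m + cc m) * |Cr| + Cn * (|B₀| + B₁ * Cg + |Cc| + Ck) := by positivity
  have hBf1 : (a + m + cc m) * |Cr| + 2 * |Cc| + Cn * (|B₀| + B₁ * Cg + |Cc| + Ck) ≤ Bf := by
    rw [hBf]
    exact le_add_of_nonneg_right hpart0
  have hBf2 : 2 * |Cc| + (a + m) * (J₁ * Real.log 2) ≤ Bf := by
    rw [hBf]
    linarith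
  clear hBf hpart0 hpart1
  refine ⟨Bf, Cn * B₁ * Cg, by positivity, ?_⟩
  intro J Ω _ ζ p Z v u τ hfam
  have hJ0 : (0 : ℝ) ≤ J := Nat.cast_nonneg J
  have hJl : (0 : ℝ) ≤ J * Real.log 2 := mul_nonneg hJ0 hl0
  have hJh : (J : ℝ) ≤ 2 * (J * Real.log 2) := by nlinarith
  have hvb : ∀ ω, 0 < p ω → ∀ k, |v ω k| ≤ 2 ^ J := by
    intro ω hω i
    have := hfam.hv ω hω i
    push_cast at this
    exact this
  rcases le_or_gt J₁ J with hJ | hJ
  · have hJ0' : J₀ ≤ J := by rw [hJ₁] at hJ; exact (le_max_left _ _).trans hJ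
    have hJ1' : 1 ≤ J := by rw [hJ₁] at hJ; exact (le_max_right _ _).trans hJ
    have hJ1r : (1 : ℝ) ≤ J := by exact_mod_cast hJ1'
    have hlpos : 0 < lm J := by
      show (0 : ℝ) < J * Real.log 2
      nlinarith
    obtain ⟨w, hw, hfam', hK', hY', hS'⟩ := hR J hJ0' Ω ζ p Z v u τ hfam
    have hEn := hE J Ω _ p (bv Z v) w τ hfam.hp hfam.h1 hw (fun ω hω => by
      have := hfam.hτ ω hω
      push_cast at this
      exact this)
    rw [← lpg_energy (J := J) (N := n) hfam.hp] at hEn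
    obtain ⟨-, c2, -, c4⟩ := hC J Ω ζ p Z v w hfam.hp hfam.h1 hvb hw
    -- the restricted family
    obtain ⟨G, hG⟩ : ∃ G : Fm m J, G = ⟨Ω, (Fin m → ℤ) × ℕ × ζ, inferInstance, p,
      fun ω => (cap J (lev J n (w ω)) (v ω), w ω, Z ω), v, u, τ, hfam'⟩ := ⟨_, rfl⟩
    have hGL : G.L = CH p v (fun ω => (cap J (lev J n (w ω)) (v ω), w ω, Z ω)) := by
      rw [hG]; rfl
    have hGsb : G.sb =
        Sb (2 ^ J) p (fun ω => (cap J (lev J n (w ω)) (v ω), w ω, Z ω)) v u τ := by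
      rw [(sbp m J Ω _ p _ v u τ hfam').1, hG]; rfl
    have hGY : G.Y = Yf (2 ^ J) p (fun ω => (cap J (lev J n (w ω)) (v ω), w ω, Z ω)) v u τ := by
      rw [hG]; rfl
    have hGK : Kf (2 ^ J) G.p (bv G.Z G.v) G.τ =
        Kf (2 ^ J) p (bv (fun ω => (cap J (lev J n (w ω)) (v ω), w ω, Z ω)) v) τ := by
      rw [hG]
    have hGG : Gf (2 ^ J) G.p (bv G.Z G.v) G.τ =
        Gf (2 ^ J) p (bv (fun ω => (cap J (lev J n (w ω)) (v ω), w ω, Z ω)) v) τ := by
      rw [hG]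
    have hKp0 := Kf_nonneg hfam'
    have hGp0 := Gf_nonneg hfam'
    have hLp0 : 0 ≤ CH p v (fun ω => (cap J (lev J n (w ω)) (v ω), w ω, Z ω)) :=
      CH_nonneg hfam.hp _ _
    have hh0 : 0 ≤ CH p (fun ω => cap J (lev J n (w ω)) (v ω)) (fun ω => (w ω, Z ω)) :=
      CH_nonneg hfam.hp _ _
    have hG0 := Gf_nonneg hfam
    have hsbp : J * Real.log 2 -
        Kf (2 ^ J) p (bv (fun ω => (cap J (lev J n (w ω)) (v ω), w ω, Z ω)) v) τ ≤
        Sb (2 ^ J) p (fun ω => (cap J (lev J n (w ω)) (v ω), w ω, Z ω)) v u τ := by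
      have h1 := (sbp m J Ω _ p _ v u τ hfam').2.1
      have h2 : 0 ≤ Sf (2 ^ J) p (fun ω => (cap J (lev J n (w ω)) (v ω), w ω, Z ω)) v u τ := by
        unfold Sf
        exact CH_nonneg hfam.hp _ _
      unfold Sb
      linarith
    -- spread
    have hspr : G.Spr N₁ m (((m : ℝ) - G.L / lm J) * lm J + Ck) := by
      refine hksp J G _ ?_
      have h1 : ((m : ℝ) - (m - G.L / lm J)) * lm J = G.L := by field_simp; ring
      rw [h1]
    have h2 : ((m : ℝ) - G.L / lm J) * lm J = m * lm J - G.L := by field_simp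
    rw [h2] at hspr
    have key := hlvb J G _ hspr
    rw [hGL, hGsb, hGY, hGK, hGG] at key
    have he00 : 0 ≤ Ex p (fun ω => (w ω : ℝ)) / n :=
      div_nonneg (Ex_nonneg hfam.hp fun ω _ => by positivity) hnpos.le
    have hlm : lm J = J * Real.log 2 := rfl
    rw [← hlm] at hJh hJl hY' c4 hsbp ⊢
    generalize CH p (fun ω => cap J (lev J n (w ω)) (v ω)) (fun ω => (w ω, Z ω)) = h at *
    generalize CH p v (fun ω => (cap J (lev J n (w ω)) (v ω), w ω, Z ω)) = Lp at *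
    generalize Sb (2 ^ J) p (fun ω => (cap J (lev J n (w ω)) (v ω), w ω, Z ω)) v u τ = sbp' at *
    generalize Yf (2 ^ J) p (fun ω => (cap J (lev J n (w ω)) (v ω), w ω, Z ω)) v u τ = Yp at *
    generalize Kf (2 ^ J) p (bv (fun ω => (cap J (lev J n (w ω)) (v ω), w ω, Z ω)) v) τ = Kp at *
    generalize Gf (2 ^ J) p (bv (fun ω => (cap J (lev J n (w ω)) (v ω), w ω, Z ω)) v) τ = Gp at *
    generalize Gf (2 ^ J) p (bv Z v) τ = Gc at *
    generalize Kf (2 ^ J) p (bv Z v) τ = K at *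
    generalize Sb (2 ^ J) p Z v u τ = S at *
    generalize CH p v Z = L at *
    generalize Ex p (fun ω => (w ω : ℝ)) / n = e0 at *
    generalize lm J = l at *
    generalize hJr : (J : ℝ) = Jr at *
    have hnn : 0 ≤ (1 / (n : ℝ) + er) * Jr := by positivity
    have hBG : 0 ≤ B₁ * Gp := mul_nonneg hB₁ hGp0
    have hel : 0 ≤ e1 * l := mul_nonneg he10.le hJl
    have hce : |Cc| / m ≤ |Cc| := div_le_self hCc0 (by linarith)
    have hLm : Lp ≤ m * ((1 - e0) * l) + |Cc| := by linarith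
    have hLm' : Lp / m ≤ (1 - e0) * l + |Cc| := by
      have h3 : Lp / m ≤ (1 - e0) * l + |Cc| / m := by
        rw [div_le_iff₀ hm0]
        have h4 : ((1 - e0) * l + |Cc| / m) * m = m * ((1 - e0) * l) + |Cc| := by
          field_simp
        rw [h4]
        exact hLm
      linarith
    have he0l : 0 ≤ e0 * l := mul_nonneg he00 hJl
    have res := hnum Lp l sbp' Yp Kp (m * l - Lp + Ck)
      (|B₀| + B₁ * Gp + e1 * l + |Cc| + Ck + (1 / n + er) * Jr) hJl hKp0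
      (by linarith) hLp0
      (by
        have h3 : 0 ≤ (m : ℝ) * (e0 * l) := mul_nonneg hm0.le he0l
        have h4 : (m : ℝ) * ((1 - e0) * l) = m * l - m * (e0 * l) := by ring
        linarith)
      (by
        have h4 : (1 - e0) * l = l - e0 * l := by ring
        linarith)
      (by linarith) hsbp
      (LVO354.two_mono key (by linarith))
    have hfin := LVO354.arith (a := a) (m := m) (c := cc m) (L := L) (Lp := Lp) (h := h)
      (sb := S) (sbp := sbp') (K := K) (Kp := Kp) (G := Gc) (Gp := Gp) (l := l) (Jr := Jr)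
      (Cr := |Cr|) (Cc := |Cc|) (Cn := Cn) (B0 := |B₀|) (B1 := B₁) (Ck := Ck) (Cg := Cg)
      (e1 := e1) (er := er) (eg := eg) (n2 := 1 / n) (ε := ε) (Bf := Bf)
      (by linarith) hmr hc0 hc1 hJl hJh hG0 hh0 hCr0 hCc0 hCn hB₀0 hB₁ hCk hCg
      (by positivity) her0.le hε (by linarith) hS' (by linarith) hEn res p1 p2 p3 p4
      hBf1
    exact hfin
  · have hC0 := hC J Ω ζ p Z v (fun _ => 0) hfam.hp hfam.h1 hvb (fun _ => Nat.zero_le _)
    obtain ⟨c1, -, c3, -⟩ := hC0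
    have hEx : Ex p (fun _ => ((0 : ℕ) : ℝ)) / n = 0 := by
      rw [Ex_const hfam.h1]
      simp
    rw [hEx] at c1 c3
    have hSb : 0 ≤ Sb (2 ^ J) p Z v u τ := by
      unfold Sb Sf
      exact add_nonneg (CH_nonneg hfam.hp _ _) (CH_nonneg hfam.hp _ _)
    have hK := Kf_nonneg hfam
    have hGn := Gf_nonneg hfam
    have hJJ : (J : ℝ) * Real.log 2 ≤ J₁ * Real.log 2 := by
      refine mul_le_mul_of_nonneg_right ?_ hl0
      exact_mod_cast hJ.le
    have hmc : (0 : ℝ) < m + cc m := by linarith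
    have ha'0 : 0 ≤ a * m / (m + cc m) := by positivity
    have ha'1 : a * m / (m + cc m) ≤ a := by
      rw [div_le_iff₀ hmc]
      exact mul_le_mul_of_nonneg_left (by linarith) ha0.le
    exact LVO354.arith0 ha'0 ha'1 hm0.le hSb hK hGn (by positivity) hJl hJJ hε.le c1 c3 hCc' hBf2

end Pool.LQ
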